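import Pool.Agent.H14.BR.Stm

/-!
# Parts NU2 and GEQ (crew BR, MP_9214e0_lc)
-/

set_option autoImplicit false

namespace H1.BR

open ZFSet (pair)
open Pool.Agent.W868
open MeasureTheory H14.ES H46.RF H14.BR

theorem down_le {T : ZFSet.{0}} (hT : IsTree T) (r : ℕ → Bool) {m n : ℕ} (hmn : m ≤ n)
    (h : ini r n ∈ T) : ini r m ∈ T := by
  induction n with
  | zero =>
    obtain rfl : m = 0 := by omega
    exact h
  | succ n ih =>
    rcases Nat.lt_or_ge n m with h1 | h1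
    · obtain rfl : m = n + 1 := by omega
      exact h
    · exact ih h1 (hT.down r n h)

theorem body_union {T T' : ZFSet.{0}} (hT : IsTree T) (hT' : IsTree T') :
    body (T ∪ T') ⊆ body T ∪ body T' := by
  intro r hr
  by_cases h : r ∈ body T
  · exact Or.inl h
  · right
    obtain ⟨n0, hn0⟩ : ∃ n, ini r n ∉ T := by
      by_contra hcon
      push Not at hcon
      exact h hcon
    intro n
    rcases ZFSet.mem_union.1 (hr (max n n0)) with h1 | h1
    · exact absurd (down_le hT r (le_max_right n n0) h1) hn0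
    · exact down_le hT' r (le_max_left n n0) h1

theorem nu2 (hREG : S_REG) (hZRL : S_ZRL) (hWRD : S_WRD) (hBMS : S_BMS) : S_NU2 := by
  intro M hM b hb
  have hZ : IsZF M := hM.toIsZF
  by_contra hcon
  push Not at hcon
  obtain ⟨hbB, hbN⟩ := hb
  apply hbN
  intro k
  obtain ⟨T, hT, T', hT', hTt, hTt', hin, hout, hmu⟩ := hREG M hM b hbB k
  obtain ⟨Wd, hWd, hWd'⟩ := (hWRD.2.2.2.2.2 M hZ).2.2.1
  have hnull : mu ℕ (body T) = 0 := by
    by_contra h
    exact hcon T ⟨hT, hTt, pos_iff_ne_zero.2 h⟩ hin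
  have hF : ZFSet.sep (fun z => z ∉ T') Wd ∈ M :=
    hZ.sep_mem (Q := fun z => z ∉ T') ((Dfn.mem (DfnF.proj 0) (DfnF.const hT')).not) hWd
  refine ⟨_, hF, ?_, ?_, ?_⟩
  · intro z hz
    rw [ZFSet.mem_sep] at hz
    exact (hWd' z).1 hz.1
  · have e1 : {r | ∃ n, ini r n ∈ ZFSet.sep (fun z => z ∉ T') Wd} = (body T')ᶜ := by
      ext r
      constructor
      · rintro ⟨n, h⟩ h'
        exact (ZFSet.mem_sep.1 h).2 (h' n)
      · intro h
        obtain ⟨n, hn⟩ : ∃ n, ini r n ∉ T' := by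
          by_contra hc
          push Not at hc
          exact h hc
        exact ⟨n, ZFSet.mem_sep.2 ⟨(hWd' _).2 ⟨r, n, rfl⟩, hn⟩⟩
    rw [e1, prob_compl_eq_one_sub (hBMS.2.1 T'), tsub_le_iff_left]
    refine hmu.trans ?_
    have h1 : mu ℕ (body (T ∪ T')) ≤ mu ℕ (body T') := by
      calc mu ℕ (body (T ∪ T')) ≤ mu ℕ (body T ∪ body T') := measure_mono (body_union hTt hTt')
        _ ≤ mu ℕ (body T) + mu ℕ (body T') := measure_union_le _ _
        _ = mu ℕ (body T') := by rw [hnull, zero_add]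
    exact add_le_add h1 le_rfl
  · intro x hx
    obtain ⟨hxM, r, rfl⟩ := hbB.2.1 x hx
    have hr : r ∉ body T' := fun h => hout r h hxM hx
    obtain ⟨n, hn⟩ : ∃ n, ini r n ∉ T' := by
      by_contra hc
      push Not at hc
      exact hr hc
    exact ⟨ini r n, ZFSet.mem_sep.2 ⟨(hWd' _).2 ⟨r, n, rfl⟩, hn⟩,
      (hZRL.1 r r n).2 fun i _ => rfl⟩

theorem ins_iff {M : Set ZFSet.{0}} {T b c : ZFSet.{0}} (h : IsB M T c) :
    Ins M T b ↔ c ⊆ b := by
  constructor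
  · intro h1 x hx
    obtain ⟨s, hs, rfl, hsM⟩ := (h x).1 hx
    exact h1 s hs hsM
  · intro h1 s hs hsM
    exact h1 ((h _).2 ⟨s, hs, rfl, hsM⟩)

theorem geq (hTR2 : S_TR2) (hGS2 : S_GS2) (hRND : S_RND) (hPMD : S_PMD) (hOPH : S_OPH) :
    S_GEQ := by
  intro M hM G hG
  have hZ : IsZF M := hM.toIsZF
  have hB := hZ.base
  obtain ⟨RS, hRS, hRS'⟩ := hRND M hM
  obtain ⟨Q, hQ, hQ'⟩ := hPMD M hZ
  obtain ⟨h, hh, hh'⟩ := hOPH M hZ
  apply Set.Subset.antisymm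
  · refine hTR2 M hZ (fun b T => b ∈ RS ∧ h T ⊆ b) ?_ Q hQ G (st M G) ?_
    · exact (Dfn.mem (DfnF.proj 0) (DfnF.const hRS)).and
        (hB.subset' (DfnF.comp1 hh (DfnF.proj 1)) (DfnF.proj 0))
    · intro p hp
      constructor
      · rintro ⟨h1, T, hT, h2⟩
        have hTP := hG.sub hT
        exact ⟨T, (hQ' T).2 hTP, ⟨(hRS' p).2 h1, (ins_iff (hh' T hTP.1)).1 h2⟩, hT⟩
      · rintro ⟨T, hT, ⟨h1, h2⟩, h3⟩
        have hTP := (hQ' T).1 hT
        exact ⟨(hRS' p).1 h1, T, h3, (ins_iff (hh' T hTP.1)).2 h2⟩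
  · refine hTR2 M hZ (fun T b => T ∈ Q ∧ b = h T) ?_ RS hRS (st M G) G ?_
    · exact (Dfn.mem (DfnF.proj 0) (DfnF.const hQ)).and
        (Dfn.eq (DfnF.proj 1) (DfnF.comp1 hh (DfnF.proj 0)))
    · intro p hp
      constructor
      · intro hpG
        have hpP := hG.sub hpG
        have h1 := (hGS2 M hM G hG p hpP (h p) (hh' p hp)).2 hpG
        exact ⟨h p, (hRS' _).2 h1.1, ⟨(hQ' p).2 hpP, rfl⟩, h1⟩
      · rintro ⟨b, hb, ⟨h1, rfl⟩, h2⟩
        have hpP := (hQ' p).1 h1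
        exact (hGS2 M hM G hG p hpP (h p) (hh' p hp)).1 h2

end H1.BR
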